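import Pool.Agent.H10.LDV2.Stmts
import Pool.Agent.H48.KST.KST

/-!
# Row KST of board `ldv`
-/

set_option autoImplicit false

namespace Pool.LDV2

open Finset Pool.Agent.H98.ABCR Pool.SHA Pool.BL

/-- row KST -/
theorem kst_thm (hE : S_ENQ) (hL : S_LAY) (hC : Pool.RIC.S_CNT) : S_KST := by
  intro J S κ ε hκ hε
  obtain ⟨C, hC1, h⟩ := Pool.KST.kst_thm hE hL hC J S κ ε hκ hε
  refine ⟨C, hC1, ?_⟩
  intro X τ g V F i j k E K d p hX hτ hg hij hik hjk hd hdJ hE hK hEK hdvd hp hV hF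
  have hK' : K ⊆ Icc 1 J \ E := by
    intro e he
    exact mem_sdiff.2 ⟨hK he, fun h' => (Finset.disjoint_left.1 hEK h') he⟩
  have h0 := h X τ g V F i j k K E d p hX hτ hg hij hik hjk hE hK' (mem_Icc.2 ⟨hd, hdJ⟩) hdvd hp hV hF
  have hC0 : 0 ≤ C := by linarith
  have hX0 : 0 < X := by linarith
  have hsd : ∑ e ∈ Icc 1 J \ E, p i e = ∑ e ∈ Icc 1 J, p i e - ∑ e ∈ E, p i e := by
    have := Finset.sum_sdiff (f := fun e => p i e) hE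
    linarith
  refine h0.trans (mul_le_mul_of_nonneg_left ?_ hC0)
  rw [hsd]
  rcases le_total (∑ e ∈ K, p i e + ∑ e ∈ Icc 1 J, p k e)
    (∑ e ∈ Icc 1 J, p i e - ∑ e ∈ E, p i e + (∑ e ∈ Icc 1 J, p j e - V / 2) +
      (∑ e ∈ Icc 1 J, p k e) / 2) with h1 | h1
  · rw [max_eq_right h1]
    have h2 : X ^ (ε + 4 * τ + (∑ e ∈ Icc 1 J, p i e - ∑ e ∈ E, p i e +
        (∑ e ∈ Icc 1 J, p j e - V / 2) + (∑ e ∈ Icc 1 J, p k e) / 2)) ≤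
        X ^ (ε + 5 * τ + (∑ e ∈ Icc 1 J, p i e - ∑ e ∈ E, p i e) +
      (∑ e ∈ Icc 1 J, p j e - V / 2) + (∑ e ∈ Icc 1 J, p k e) / 2) :=
      Real.rpow_le_rpow_of_exponent_le hX (by linarith)
    have h3 : 0 ≤ X ^ (ε + 5 * τ + ∑ e ∈ K, p i e + ∑ e ∈ Icc 1 J, p k e) :=
      (Real.rpow_pos_of_pos hX0 _).le
    linarith
  · rw [max_eq_left h1]
    have h2 : X ^ (ε + 4 * τ + (∑ e ∈ K, p i e + ∑ e ∈ Icc 1 J, p k e)) ≤
        X ^ (ε + 5 * τ + ∑ e ∈ K, p i e + ∑ e ∈ Icc 1 J, p k e) :=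
      Real.rpow_le_rpow_of_exponent_le hX (by linarith)
    have h3 : 0 ≤ X ^ (ε + 5 * τ + (∑ e ∈ Icc 1 J, p i e - ∑ e ∈ E, p i e) +
      (∑ e ∈ Icc 1 J, p j e - V / 2) + (∑ e ∈ Icc 1 J, p k e) / 2) :=
      (Real.rpow_pos_of_pos hX0 _).le
    linarith

end Pool.LDV2
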