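import Pool.Agent.H10.LDV2.Stmts
import Pool.Agent.H48.THU.Thu

/-!
# Row THU of board `ldv`
-/

set_option autoImplicit false

namespace Pool.LDV2

open Finset

/-- row THU -/
theorem thu_thm : S_THU := by
  intro d ε hd hε
  obtain ⟨C, hC, h⟩ := Pool.THU.thu d hd ε hε
  refine ⟨C, hC, ?_⟩
  intro H r s m h1 h2 h3 h4 h5
  exact h H r s m (h1.trans h2) h1 h2 h3 h4 h5

end Pool.LDV2
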